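import Pool.Agent.H705.FP.Stm

/-! # From a function to its local averages: proof of `P_SUP` -/

set_option autoImplicit false

namespace Pool.Agent.H113.FP.SUP

open MeasureTheory Filter Topology Set

open Pool.Agent.H705.FP

theorem ratio (κ b b' : ℝ) (hbb : b < b') :
    ∀ᶠ z : ℝ in atTop, b * (z + 1) ^ κ ≤ b' * z ^ κ := by
  have h1 : Tendsto (fun z : ℝ => b * ((z + 1) / z) ^ κ) atTop (𝓝 (b * 1 ^ κ)) := by
    apply Tendsto.const_mul
    have h2 : Tendsto (fun z : ℝ => (z + 1) / z) atTop (𝓝 1) := by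
      have h3 : Tendsto (fun z : ℝ => 1 + z⁻¹) atTop (𝓝 (1 + 0)) :=
        tendsto_const_nhds.add tendsto_inv_atTop_zero
      rw [add_zero] at h3
      refine h3.congr' ?_
      filter_upwards [eventually_gt_atTop 0] with z hz
      field_simp
    exact h2.rpow_const (Or.inl one_ne_zero)
  rw [Real.one_rpow, mul_one] at h1
  filter_upwards [h1.eventually (gt_mem_nhds hbb), eventually_gt_atTop 0] with z hz hz0
  rw [Real.div_rpow (by linarith) hz0.le] at hz
  have h4 : 0 < z ^ κ := Real.rpow_pos_of_pos hz0 κ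
  have h5 : b * ((z + 1) ^ κ / z ^ κ) = b * (z + 1) ^ κ / z ^ κ := by ring
  rw [h5, div_lt_iff₀ h4] at hz
  exact hz.le

theorem bound (S : ℝ → ℝ) (σ κ b b' : ℝ) (hκ : 0 < κ) (hbb : b < b')
    (h : ∀ᶠ y : ℝ in atTop, σ * S y ≤ b * Real.log (Real.log y) ^ κ) :
    ∀ᶠ t : ℝ in atTop, ∀ y ∈ Icc t (t + 1), σ * S y ≤ b' * Real.log (Real.log t) ^ κ := by
  obtain ⟨T, hT⟩ := eventually_atTop.1 h
  have hz : Tendsto (fun t : ℝ => Real.log (Real.log t)) atTop atTop :=
    Real.tendsto_log_atTop.comp Real.tendsto_log_atTop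
  filter_upwards [eventually_ge_atTop T, eventually_ge_atTop (Real.exp 1),
    hz.eventually (ratio κ b b' hbb), hz.eventually_ge_atTop 0, eventually_ge_atTop 3]
    with t h1 h2 h3 h4 h5 y hy
  have ht0 : 0 < t := by linarith
  have hy0 : 0 < y := ht0.trans_le hy.1
  have hlog : 1 ≤ Real.log t := (Real.le_log_iff_exp_le ht0).2 h2
  have hlogy : Real.log t ≤ Real.log y := Real.log_le_log ht0 hy.1
  have hty : Real.log (Real.log t) ≤ Real.log (Real.log y) :=
    Real.log_le_log (by linarith) hlogy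
  refine (hT y (h1.trans hy.1)).trans ?_
  rcases le_or_gt 0 b with hb | hb
  · have h6 : Real.log (Real.log y) ≤ Real.log (Real.log t) + 1 := by
      have h7 : Real.log y ≤ 2 * Real.log t := by
        calc Real.log y ≤ Real.log (t ^ 2) := Real.log_le_log hy0 (by nlinarith [hy.2])
          _ = 2 * Real.log t := by
            rw [Real.log_pow]
            norm_num
      calc Real.log (Real.log y) ≤ Real.log (2 * Real.log t) :=
            Real.log_le_log (by linarith) h7
        _ = Real.log 2 + Real.log (Real.log t) := Real.log_mul (by norm_num) (by linarith)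
        _ ≤ Real.log (Real.log t) + 1 := by
            have := Real.log_two_lt_d9
            linarith
    calc b * Real.log (Real.log y) ^ κ ≤ b * (Real.log (Real.log t) + 1) ^ κ :=
          mul_le_mul_of_nonneg_left (Real.rpow_le_rpow (h4.trans hty) h6 hκ.le) hb
      _ ≤ b' * Real.log (Real.log t) ^ κ := h3
  · calc b * Real.log (Real.log y) ^ κ ≤ b * Real.log (Real.log t) ^ κ :=
          mul_le_mul_of_nonpos_left (Real.rpow_le_rpow h4 hty hκ.le) hb.le
      _ ≤ b' * Real.log (Real.log t) ^ κ :=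
          mul_le_mul_of_nonneg_right hbb.le (Real.rpow_nonneg h4 κ)

theorem T_SUP : P_SUP := by
  intro S F σ κ b b' c hσ hκ hbb hc hF h
  filter_upwards [bound S σ κ b b' hκ hbb h, eventually_ge_atTop 1] with t hB ht
  have ht0 : 0 < t := by linarith
  obtain ⟨d, hd⟩ : ∃ d : ℝ, d = t ^ (-c) := ⟨_, rfl⟩
  have hd0 : 0 < d := by
    rw [hd]
    exact Real.rpow_pos_of_pos ht0 _
  have hd1 : d ≤ 1 := by
    rw [hd]
    exact Real.rpow_le_one_of_one_le_of_nonpos ht (by linarith)
  obtain ⟨B, hBd⟩ : ∃ B : ℝ, B = b' * Real.log (Real.log t) ^ κ := ⟨_, rfl⟩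
  rw [← hBd] at hB ⊢
  have e1 := hF t ht0.le
  have e2 := hF (t + d) (by linarith)
  have e3 : F (t + d) - F t = ∫ y in t..(t + d), S y := by
    rw [← e1.2, ← e2.2, intervalIntegral.integral_interval_sub_left e2.1 e1.1]
  have hi : IntervalIntegrable S volume t (t + d) := e1.1.symm.trans e2.1
  have e4 : σ * (∫ y in t..(t + d), S y) ≤ d * B := by
    rw [← intervalIntegral.integral_const_mul]
    have h5 : ∫ y in t..(t + d), σ * S y ≤ ∫ _ in t..(t + d), B :=
      intervalIntegral.integral_mono_on (by linarith) (hi.const_mul σ) intervalIntegrable_const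
        (fun y hy => hB y ⟨hy.1, hy.2.trans (by linarith)⟩)
    rw [intervalIntegral.integral_const, smul_eq_mul] at h5
    have h6 : t + d - t = d := by ring
    rwa [h6] at h5
  have e5 : t ^ c * d = 1 := by
    rw [hd, ← Real.rpow_add ht0, add_neg_cancel, Real.rpow_zero]
  unfold avg
  rw [← hd, e3]
  calc σ * (t ^ c * ∫ y in t..(t + d), S y) = t ^ c * (σ * ∫ y in t..(t + d), S y) := by ring
    _ ≤ t ^ c * (d * B) := mul_le_mul_of_nonneg_left e4 (Real.rpow_nonneg ht0.le _)
    _ = B := by rw [← mul_assoc, e5, one_mul]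

end Pool.Agent.H113.FP.SUP
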